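import Mathlib

set_option autoImplicit false
set_option linter.unusedSectionVars false

/-!
Polynomial density does not imply equality of the sets of eigenvalues.
-/

namespace Pool.Agent.Results.MP_efce82_al.DenseNotEigenvalues

open Polynomial

/-- `A` is polynomially dense in the set `A'` of the elements of `B` which are integral
over `D`: a polynomial over `K` maps `A` into `A'` if and only if it maps `A'` into `A'`. -/
def PolynomiallyDense (D K : Type) {B : Type} [CommRing D] [Field K] [Ring B] [Algebra K B]
    [Algebra D B] (A : Subalgebra D B) : Prop :=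
  ∀ f : K[X], (∀ a ∈ A, IsIntegral D (aeval a f)) ↔ (∀ b : B, IsIntegral D b →
    IsIntegral D (aeval b f))

/-- `Ω_S`: the set of the roots in the algebraic closure of `K` of the minimal polynomials
over `K` of the elements of `S`. -/
def Omega (K : Type) {B : Type} [Field K] [Ring B] [Algebra K B] (S : Set B) :
    Set (AlgebraicClosure K) :=
  {α | ∃ b ∈ S, aeval α (minpoly K b) = 0}

/-- The statement of the problem. `B` is a `K`-algebra and `A` a `D`-subalgebra of `B` which is
finitely generated as a `D`-module and spans `B` over `K`, so that `B = A ⊗_D K`. -/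
def Statement : Prop :=
  ∀ (D K B : Type) [CommRing D] [IsDomain D] [IsIntegrallyClosed D] [Field K] [Algebra D K]
    [IsFractionRing D K] [Ring B] [Nontrivial B] [Algebra K B] [Algebra D B] [IsScalarTower D K B]
    (A : Subalgebra D B), Module.Finite D A → Submodule.span K (A : Set B) = ⊤ →
    PolynomiallyDense D K A → Omega K (A : Set B) = Omega K {b : B | IsIntegral D b}

section

variable (D K : Type) [CommRing D] [IsDomain D] [Field K] [Algebra D K] [IsFractionRing D K]

/-- If all residue fields are infinite, polynomials mapping `D` to `D` have coefficients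
in `D`. -/
theorem mem_lifts_of_infinite (hres : ∀ M : Ideal D, M.IsMaximal → Infinite (D ⧸ M))
    (f : K[X]) (hf : ∀ x : D, ∃ y : D, f.eval (algebraMap D K x) = algebraMap D K y) :
    ∃ g : D[X], g.map (algebraMap D K) = f := by
  classical
  set m := f.natDegree + 1 with hm
  -- the ideal of the denominators
  let I : Ideal D :=
    { carrier := {e | ∀ i, ∃ y : D, algebraMap D K e * f.coeff i = algebraMap D K y}
      add_mem' := by
        intro a b ha hb i
        obtain ⟨y, hy⟩ := ha i
        obtain ⟨z, hz⟩ := hb i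
        exact ⟨y + z, by rw [map_add, add_mul, hy, hz, map_add]⟩
      zero_mem' := by
        intro i
        exact ⟨0, by simp⟩
      smul_mem' := by
        intro c a ha i
        obtain ⟨y, hy⟩ := ha i
        exact ⟨c * y, by rw [smul_eq_mul, map_mul, mul_assoc, hy, map_mul]⟩ }
  have hI : I = ⊤ := by
    by_contra hne
    obtain ⟨M, hM, hIM⟩ := Ideal.exists_le_maximal I hne
    have := hres M hM
    have := hM
    obtain ⟨e, he⟩ : ∃ e : Fin m → D ⧸ M, Function.Injective e :=
      ⟨_, (Infinite.natEmbedding (D ⧸ M)).injective.comp Fin.val_injective⟩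
    choose d hd using fun i => Ideal.Quotient.mk_surjective (e i)
    -- the Vandermonde matrix
    let V : Matrix (Fin m) (Fin m) D := Matrix.vandermonde d
    have hV : V.det ∈ I := by
      intro i
      by_cases hi : i < m
      · choose y hy using hf
        have h1 : (V.map (algebraMap D K)).mulVec (fun j => f.coeff j) =
            fun j => algebraMap D K (y (d j)) := by
          funext j
          rw [← hy, Matrix.mulVec, dotProduct, eval_eq_sum_range' (n := m) (by omega),
            Finset.sum_range]
          refine Finset.sum_congr rfl fun k _ => ?_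
          change algebraMap D K (d j ^ (k : ℕ)) * f.coeff k = f.coeff k * _
          rw [map_pow, mul_comm]
        have h2 : (V.map (algebraMap D K)).det • (fun j : Fin m => f.coeff j) =
            (V.map (algebraMap D K)).adjugate.mulVec (fun j => algebraMap D K (y (d j))) := by
          rw [← h1, Matrix.mulVec_mulVec, Matrix.adjugate_mul, Matrix.smul_mulVec,
            Matrix.one_mulVec]
        have h3 := congrFun h2 ⟨i, hi⟩
        refine ⟨V.adjugate.mulVec (fun j => y (d j)) ⟨i, hi⟩, ?_⟩
        have h4 : (V.map (algebraMap D K)).det = algebraMap D K V.det := by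
          rw [RingHom.map_det]; rfl
        have h5 : (V.map (algebraMap D K)).adjugate = V.adjugate.map (algebraMap D K) := by
          have := RingHom.map_adjugate (algebraMap D K) V
          simpa using this.symm
        rw [h4, h5] at h3
        simp only [Pi.smul_apply, smul_eq_mul] at h3
        rw [h3, Matrix.mulVec, dotProduct, Matrix.mulVec, dotProduct, map_sum]
        refine Finset.sum_congr rfl fun k _ => ?_
        rw [Matrix.map_apply, map_mul]
      · refine ⟨0, ?_⟩
        rw [coeff_eq_zero_of_natDegree_lt (by omega), mul_zero, map_zero]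
    have h6 : Ideal.Quotient.mk M V.det ≠ 0 := by
      rw [Matrix.det_vandermonde, map_prod]
      refine Finset.prod_ne_zero_iff.2 fun i _ => ?_
      rw [map_prod]
      refine Finset.prod_ne_zero_iff.2 fun j hj => ?_
      rw [map_sub, hd, hd, sub_ne_zero]
      intro h
      have := he h
      rw [Finset.mem_Ioi] at hj
      exact absurd this (ne_of_gt hj)
    exact h6 (Ideal.Quotient.eq_zero_iff_mem.2 (hIM hV))
  have h1 : (1 : D) ∈ I := by rw [hI]; trivial
  have h2 : f ∈ lifts (algebraMap D K) := by
    rw [lifts_iff_coeff_lifts]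
    intro i
    obtain ⟨y, hy⟩ := h1 i
    rw [map_one, one_mul] at hy
    exact ⟨y, hy.symm⟩
  obtain ⟨g, hg⟩ := h2
  exact ⟨g, by simpa using hg⟩

/-- polynomials over `D` map integral elements to integral elements, also in a noncommutative
algebra -/
theorem isIntegral_aeval {B : Type} [Ring B] [Algebra D B] (b : B) (hb : IsIntegral D b)
    (f : D[X]) : IsIntegral D (aeval b f) := by
  obtain ⟨g, hg, hgb⟩ := hb
  have h1 : ∀ p ∈ Ideal.span ({g} : Set D[X]), aeval b p = 0 := by
    intro p hp
    obtain ⟨q, rfl⟩ := Ideal.mem_span_singleton'.1 hp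
    rw [map_mul, aeval_def b g, hgb, mul_zero]
  have h2 : Module.Finite D (D[X] ⧸ Ideal.span ({g} : Set D[X])) := hg.finite_quotient
  let φ : (D[X] ⧸ Ideal.span ({g} : Set D[X])) →ₐ[D] B :=
    Ideal.Quotient.liftₐ _ (aeval b) h1
  have h3 : IsIntegral D (Ideal.Quotient.mk (Ideal.span ({g} : Set D[X])) f) :=
    IsIntegral.of_finite D _
  exact h3.map φ

variable [IsIntegrallyClosed D]

theorem mem_of_integral {B : Type} [Ring B] [Nontrivial B] [Algebra K B] [Algebra D B]
    [IsScalarTower D K B] (f : K[X])
    (hf : ∀ x : D, IsIntegral D (aeval (algebraMap D B x) f)) :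
    ∀ x : D, ∃ y : D, f.eval (algebraMap D K x) = algebraMap D K y := by
  intro x
  have h2 := hf x
  rw [IsScalarTower.algebraMap_apply D K B, aeval_algebraMap_apply] at h2
  have h6 : IsIntegral D (f.eval (algebraMap D K x)) :=
    (isIntegral_algebraMap_iff (FaithfulSMul.algebraMap_injective K B)).1 h2
  obtain ⟨y, hy⟩ := IsIntegrallyClosed.isIntegral_iff.1 h6
  exact ⟨y, hy.symm⟩

/-- If the residue fields of `D` are infinite, `A` is always polynomially dense in `A'`. -/
theorem polynomiallyDense (hres : ∀ M : Ideal D, M.IsMaximal → Infinite (D ⧸ M))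
    {B : Type} [Ring B] [Nontrivial B] [Algebra K B] [Algebra D B] [IsScalarTower D K B]
    (A : Subalgebra D B) (hA : Module.Finite D A) : PolynomiallyDense D K A := by
  intro f
  constructor
  · intro hf b hb
    obtain ⟨g, rfl⟩ := mem_lifts_of_infinite D K hres f
      (mem_of_integral D K (B := B) f (fun x => hf _ (A.algebraMap_mem x)))
    rw [aeval_map_algebraMap]
    exact isIntegral_aeval D b hb g
  · intro hf a ha
    apply hf
    have h4 : IsIntegral D (⟨a, ha⟩ : A) := IsIntegral.of_finite D _
    exact h4.map A.val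

end

section

variable (D K : Type) [CommRing D] [IsDomain D] [Field K] [Algebra D K] [IsFractionRing D K]

/-- the ring `D + t M_2(D)` of matrices -/
def mats (t : D) : Subalgebra D (Matrix (Fin 2) (Fin 2) K) where
  carrier := {p | ∃ (x : D) (M : Matrix (Fin 2) (Fin 2) D),
    p = (x • (1 : Matrix (Fin 2) (Fin 2) D) + t • M).map (algebraMap D K)}
  mul_mem' := by
    rintro _ _ ⟨x, M, rfl⟩ ⟨y, N, rfl⟩
    refine ⟨x * y, x • N + y • M + t • (M * N), ?_⟩
    rw [← Matrix.map_mul]
    congr 1
    simp only [add_mul, mul_add, smul_mul_assoc, mul_smul_comm, one_mul, mul_one, smul_add,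
      smul_smul, mul_comm]
    abel
  add_mem' := by
    rintro _ _ ⟨x, M, rfl⟩ ⟨y, N, rfl⟩
    refine ⟨x + y, M + N, ?_⟩
    rw [← Matrix.map_add _ (map_add _)]
    congr 1
    rw [add_smul, smul_add]
    abel
  algebraMap_mem' := by
    intro x
    refine ⟨x, 0, ?_⟩
    rw [smul_zero, add_zero]
    ext i j
    rw [Matrix.map_apply, Matrix.smul_apply, smul_eq_mul, map_mul, Matrix.algebraMap_matrix_apply]
    by_cases h : i = j
    · subst h; simp
    · simp [h]

theorem mats_finite (t : D) : Module.Finite D (mats D K t) := by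
  let L : D × Matrix (Fin 2) (Fin 2) D →ₗ[D] mats D K t :=
    { toFun := fun p => ⟨(p.1 • (1 : Matrix (Fin 2) (Fin 2) D) + t • p.2).map (algebraMap D K),
        p.1, p.2, rfl⟩
      map_add' := by
        intro p q
        apply Subtype.ext
        ext i j
        change algebraMap D K (((p.1 + q.1) • (1 : Matrix (Fin 2) (Fin 2) D) +
          t • (p.2 + q.2)) i j) = algebraMap D K ((p.1 • (1 : Matrix (Fin 2) (Fin 2) D) +
          t • p.2) i j) + algebraMap D K ((q.1 • (1 : Matrix (Fin 2) (Fin 2) D) + t • q.2) i j)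
        rw [← map_add]
        congr 1
        simp only [Matrix.add_apply, Matrix.smul_apply, smul_eq_mul]
        ring
      map_smul' := by
        intro c p
        apply Subtype.ext
        ext i j
        change algebraMap D K (((c * p.1) • (1 : Matrix (Fin 2) (Fin 2) D) + t • (c • p.2)) i j) =
          c • algebraMap D K ((p.1 • (1 : Matrix (Fin 2) (Fin 2) D) + t • p.2) i j)
        rw [show ∀ y : D, c • algebraMap D K y = algebraMap D K (c * y) from
          fun y => by rw [map_mul, Algebra.smul_def]]
        congr 1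
        simp only [Matrix.add_apply, Matrix.smul_apply, smul_eq_mul]
        ring }
  refine Module.Finite.of_surjective L ?_
  rintro ⟨_, x, M, rfl⟩
  exact ⟨(x, M), rfl⟩

theorem mats_span (t : D) (ht : t ≠ 0) :
    Submodule.span K (mats D K t : Set (Matrix (Fin 2) (Fin 2) K)) = ⊤ := by
  have ht' : algebraMap D K t ≠ 0 := by
    rwa [Ne, map_eq_zero_iff _ (IsFractionRing.injective D K)]
  rw [eq_top_iff]
  intro N _
  rw [Matrix.matrix_eq_sum_single N]
  refine Submodule.sum_mem _ fun i _ => Submodule.sum_mem _ fun j _ => ?_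
  have h1 : Matrix.single i j (algebraMap D K t) ∈ Submodule.span K
      (mats D K t : Set (Matrix (Fin 2) (Fin 2) K)) := by
    refine Submodule.subset_span ⟨0, Matrix.single i j 1, ?_⟩
    rw [zero_smul, zero_add, Matrix.smul_single, smul_eq_mul, mul_one]
    ext k l
    rw [Matrix.map_apply, Matrix.single_apply, Matrix.single_apply]
    split_ifs <;> simp
  have h2 := Submodule.smul_mem _ (N i j / algebraMap D K t) h1
  rw [Matrix.smul_single, smul_eq_mul, div_mul_cancel₀ _ ht'] at h2
  exact h2

variable [IsIntegrallyClosed D]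

theorem irred (t : D) (ht : Prime t) : Irreducible (X ^ 2 - C (algebraMap D K t) : K[X]) := by
  refine (X_pow_sub_C_irreducible_iff_of_prime Nat.prime_two).2 ?_
  intro x hx
  have h1 : IsIntegral D x := by
    refine ⟨X ^ 2 - C t, monic_X_pow_sub_C t two_ne_zero, ?_⟩
    rw [eval₂_sub, eval₂_X_pow, eval₂_C, hx, sub_self]
  obtain ⟨y, rfl⟩ := IsIntegrallyClosed.isIntegral_iff.1 h1
  rw [← map_pow] at hx
  have h2 : y ^ 2 = t := IsFractionRing.injective D K hx
  have h3 := ht.irreducible
  rw [← h2] at h3
  exact (not_irreducible_pow (by norm_num)) h3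

theorem omega_ne (t : D) (ht : Prime t) :
    Omega K (mats D K t : Set (Matrix (Fin 2) (Fin 2) K)) ≠
      Omega K {b : Matrix (Fin 2) (Fin 2) K | IsIntegral D b} := by
  intro hΩ
  set τ := algebraMap D K t with hτ
  have hirr := irred D K t ht
  rw [← hτ] at hirr
  have hmon : (X ^ 2 - C τ : K[X]).Monic := monic_X_pow_sub_C τ two_ne_zero
  obtain ⟨α, hα⟩ := IsAlgClosed.exists_aeval_eq_zero (AlgebraicClosure K) (X ^ 2 - C τ : K[X])
    (by rw [degree_X_pow_sub_C (by norm_num)]; norm_num)
  -- `α` is an eigenvalue of an integral matrix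
  have h1 : α ∈ Omega K {b : Matrix (Fin 2) (Fin 2) K | IsIntegral D b} := by
    have hb : (!![0, τ; 1, 0] : Matrix (Fin 2) (Fin 2) K) ^ 2 = algebraMap K _ τ := by
      rw [pow_two]
      ext i j
      fin_cases i <;> fin_cases j <;> simp [Matrix.mul_apply, Fin.sum_univ_two,
        Matrix.algebraMap_matrix_apply]
    refine ⟨!![0, τ; 1, 0], ?_, ?_⟩
    · refine ⟨X ^ 2 - C t, monic_X_pow_sub_C t two_ne_zero, ?_⟩
      rw [eval₂_sub, eval₂_X_pow, eval₂_C, hb, hτ, ← IsScalarTower.algebraMap_apply, sub_self]
    · have h2 : minpoly K (!![0, τ; 1, 0] : Matrix (Fin 2) (Fin 2) K) = X ^ 2 - C τ := by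
        symm
        apply minpoly.eq_of_irreducible_of_monic hirr _ hmon
        rw [map_sub, map_pow, aeval_X, aeval_C, hb, sub_self]
      rw [h2, hα]
  -- but not of a matrix in `D + t M_2(D)`
  rw [← hΩ] at h1
  obtain ⟨_, ⟨x, M, rfl⟩, h2⟩ := h1
  set N := (x • (1 : Matrix (Fin 2) (Fin 2) D) + t • M).map (algebraMap D K) with hN
  have h3 : (X ^ 2 - C τ : K[X]) ∣ minpoly K N := by
    have h4 : minpoly K α = X ^ 2 - C τ := (minpoly.eq_of_irreducible_of_monic hirr hα hmon).symm
    rw [← h4]
    exact minpoly.dvd K α h2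
  have h4 : (X ^ 2 - C τ : K[X]) = N.charpoly := by
    refine (eq_of_monic_of_dvd_of_natDegree_le hmon N.charpoly_monic
      (h3.trans (Matrix.minpoly_dvd_charpoly N)) ?_).symm
    rw [Matrix.charpoly_natDegree_eq_dim, natDegree_X_pow_sub_C]
    simp
  have h5 : -τ = N.det := by
    have := congrArg (eval 0) h4
    rw [Matrix.charpoly_fin_two] at this
    simpa using this
  have h6 : -t = (x + t * M 0 0) * (x + t * M 1 1) - (t * M 0 1) * (t * M 1 0) := by
    apply IsFractionRing.injective D K
    rw [map_neg, ← hτ, h5, Matrix.det_fin_two]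
    simp [hN]
  have h7 : t ∣ x ^ 2 := by
    refine ⟨-1 - x * M 1 1 - x * M 0 0 - t * M 0 0 * M 1 1 + t * M 0 1 * M 1 0, ?_⟩
    linear_combination -h6
  obtain ⟨y, rfl⟩ := ht.dvd_of_dvd_pow h7
  have h8 : t * 1 = t * (t * (- (y + M 0 0) * (y + M 1 1) + M 0 1 * M 1 0)) := by
    linear_combination -h6
  have h9 := mul_left_cancel₀ ht.ne_zero h8
  exact ht.not_isUnit (IsUnit.of_mul_eq_one _ h9.symm)

end

/-- (1) Let `D` be an integrally closed domain all of whose residue fields are infinite. Then
every torsion-free module-finite `D`-algebra `A` is polynomially dense in `A'`; but for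
`A = D + t M_2(D)` with `t` a prime element of `D`, the sets `Ω_A` and `Ω_{A'}` are different.
(2) Hence the answer to the problem is negative. -/
theorem result :
    (∀ (D K : Type) [CommRing D] [IsDomain D] [IsIntegrallyClosed D] [Field K] [Algebra D K]
      [IsFractionRing D K], (∀ M : Ideal D, M.IsMaximal → Infinite (D ⧸ M)) →
      (∀ (B : Type) [Ring B] [Nontrivial B] [Algebra K B] [Algebra D B] [IsScalarTower D K B]
        (A : Subalgebra D B), Module.Finite D A → PolynomiallyDense D K A) ∧
      (∀ t : D, Prime t → Module.Finite D (mats D K t) ∧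
        Submodule.span K (mats D K t : Set (Matrix (Fin 2) (Fin 2) K)) = ⊤ ∧
        Omega K (mats D K t : Set (Matrix (Fin 2) (Fin 2) K)) ≠
          Omega K {b : Matrix (Fin 2) (Fin 2) K | IsIntegral D b})) ∧
    ¬ Statement := by
  have key : (∀ (D K : Type) [CommRing D] [IsDomain D] [IsIntegrallyClosed D] [Field K]
      [Algebra D K] [IsFractionRing D K], (∀ M : Ideal D, M.IsMaximal → Infinite (D ⧸ M)) →
      (∀ (B : Type) [Ring B] [Nontrivial B] [Algebra K B] [Algebra D B] [IsScalarTower D K B]
        (A : Subalgebra D B), Module.Finite D A → PolynomiallyDense D K A) ∧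
      (∀ t : D, Prime t → Module.Finite D (mats D K t) ∧
        Submodule.span K (mats D K t : Set (Matrix (Fin 2) (Fin 2) K)) = ⊤ ∧
        Omega K (mats D K t : Set (Matrix (Fin 2) (Fin 2) K)) ≠
          Omega K {b : Matrix (Fin 2) (Fin 2) K | IsIntegral D b})) := by
    intro D K _ _ _ _ _ _ hres
    exact ⟨fun B _ _ _ _ _ A hA => polynomiallyDense D K hres A hA, fun t ht =>
      ⟨mats_finite D K t, mats_span D K t ht.ne_zero, omega_ne D K t ht⟩⟩
  refine ⟨key, fun h => ?_⟩
  have hres : ∀ M : Ideal ℚ[X], M.IsMaximal → Infinite (ℚ[X] ⧸ M) := by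
    intro M hM
    have : Nontrivial (ℚ[X] ⧸ M) := Ideal.Quotient.nontrivial_iff.2 hM.ne_top
    exact Infinite.of_injective _ (algebraMap ℚ (ℚ[X] ⧸ M)).injective
  obtain ⟨h1, h2⟩ := key ℚ[X] (FractionRing ℚ[X]) hres
  obtain ⟨h3, h4, h5⟩ := h2 X prime_X
  exact h5 (h ℚ[X] (FractionRing ℚ[X]) (Matrix (Fin 2) (Fin 2) (FractionRing ℚ[X])) _ h3 h4
    (h1 _ _ h3))

end Pool.Agent.Results.MP_efce82_al.DenseNotEigenvalues
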